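import Pool.Agent.helper38.AT.Spec

set_option autoImplicit false

namespace Pool.Agent.AT

open Finset Real Pool.Agent.helper39.MT Pool.Agent.helper85.FC Pool.Agent.MK

theorem THF_sym (c : ℤ) : (-c ≠ 0 ∧ Dif (-c)) ↔ (c ≠ 0 ∧ Dif c) := by
  have key : ∀ c : ℤ, Dif c → Dif (-c) := by
    intro c h
    have h1 : (Prod.swap '' {pq : ℕ × ℕ | pq.1.Prime ∧ pq.2.Prime ∧ (pq.1 : ℤ) - pq.2 = c}).Infinite :=
      h.image Prod.swap_injective.injOn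
    refine h1.mono ?_
    rintro _ ⟨⟨p, q⟩, ⟨hp, hq, hc⟩, rfl⟩
    refine ⟨hq, hp, ?_⟩
    change (q : ℤ) - p = -c
    change (p : ℤ) - q = c at hc
    omega
  constructor
  · rintro ⟨h1, h2⟩
    have := key _ h2
    rw [neg_neg] at this
    exact ⟨fun h => h1 (by rw [h, neg_zero]), this⟩
  · rintro ⟨h1, h2⟩
    exact ⟨neg_ne_zero.2 h1, key _ h2⟩

theorem THF_pair {x y : ℤ} (h : Pair ((1 : ℕ), x) ((1 : ℕ), y)) : x - y ≠ 0 ∧ Dif (x - y) := by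
  unfold Pair at h
  have e1 : (((((1 : ℕ), y) : ℕ × ℤ).1 : ℤ) * (((1 : ℕ), x) : ℕ × ℤ).2 -
      ((((1 : ℕ), x) : ℕ × ℤ).1 : ℤ) * (((1 : ℕ), y) : ℕ × ℤ).2) /
      ((Nat.gcd (((1 : ℕ), x) : ℕ × ℤ).1 (((1 : ℕ), y) : ℕ × ℤ).1 : ℕ) : ℤ) = x - y := by
    simp
  rw [e1] at h
  obtain ⟨-, -, h3, -, -, -, -, h8⟩ := h
  refine ⟨h3, ?_⟩
  unfold Dif
  have e2 : {pq : ℕ × ℕ | pq.1.Prime ∧ pq.2.Prime ∧ (pq.1 : ℤ) - pq.2 = x - y} =
      {pq : ℕ × ℕ | pq.1.Prime ∧ pq.2.Prime ∧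
        ((((((1 : ℕ), y) : ℕ × ℤ).1 / Nat.gcd (((1 : ℕ), x) : ℕ × ℤ).1 (((1 : ℕ), y) : ℕ × ℤ).1 : ℕ) : ℤ) * pq.1 -
        (((((1 : ℕ), x) : ℕ × ℤ).1 / Nat.gcd (((1 : ℕ), x) : ℕ × ℤ).1 (((1 : ℕ), y) : ℕ × ℤ).1 : ℕ) : ℤ) * pq.2) =
          x - y} := by
    ext pq
    simp
  rw [e2]
  exact h8

theorem THF_large {C δ : ℝ} (hδ : 0 < δ) {e : ℝ} (he : 0 < e) :
    ∃ N₀ : ℕ, ∀ M : ℕ, N₀ ≤ M → C * (M : ℝ) ^ (-δ) < e := by
  have h1 : Filter.Tendsto (fun M : ℕ => C * (M : ℝ) ^ (-δ)) Filter.atTop (nhds (C * 0)) :=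
    ((tendsto_rpow_neg_atTop hδ).comp tendsto_natCast_atTop_atTop).const_mul C
  rw [mul_zero] at h1
  have h2 := h1.eventually (gt_mem_nhds he)
  exact Filter.eventually_atTop.1 h2

theorem THF (h1 : THA_stmt) (h2 : THC_stmt) : THF_stmt := by
  classical
  intro hQ ε hε
  by_cases hε6 : 1 / 6 < ε
  · refine ⟨0, fun M _ u => ?_⟩
    have h3 : (1 / 6 - ε) * (M : ℝ) ≤ 0 :=
      mul_nonpos_of_nonpos_of_nonneg (by linarith) (Nat.cast_nonneg M)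
    exact h3.trans (Nat.cast_nonneg _)
  rw [not_lt] at hε6
  by_contra hcon
  push Not at hcon
  choose g hg u₀ hu using hcon
  obtain ⟨C, δ, hC, hδ, -, hQ'⟩ := hQ
  have he : 0 < (ε / 2) ^ 3 / 12 := by positivity
  obtain ⟨N₀, hN₀⟩ := THF_large (C := C) hδ he
  -- the sequence
  let B : ℕ → ℕ := fun n => Nat.rec (max N₀ ⌈24 / ε⌉₊)
    (fun _ b => ⌈24 * (|(u₀ b : ℝ)| + g b + 1) / ε⌉₊) n
  have hB : ∀ n, B (n + 1) = ⌈24 * (|(u₀ (B n) : ℝ)| + g (B n) + 1) / ε⌉₊ := fun n => rfl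
  have hstep : ∀ n, 24 * (|(u₀ (B n) : ℝ)| + g (B n) + 1) ≤ ε * g (B (n + 1)) := by
    intro n
    have a1 : 24 * (|(u₀ (B n) : ℝ)| + g (B n) + 1) / ε ≤ (g (B (n + 1)) : ℝ) := by
      refine (Nat.le_ceil _).trans ?_
      rw [← hB n]
      exact_mod_cast hg (B (n + 1))
    rw [div_le_iff₀ hε] at a1
    linarith
  have hmono : ∀ n, (g (B n) : ℝ) ≤ g (B (n + 1)) := by
    intro n
    have a1 := hstep n
    have a2 : 0 ≤ |(u₀ (B n) : ℝ)| := abs_nonneg _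
    have a3 : (0 : ℝ) ≤ g (B (n + 1)) := Nat.cast_nonneg _
    have a4 : (0 : ℝ) ≤ g (B n) := Nat.cast_nonneg _
    nlinarith
  have hmono' : Monotone (fun n => (g (B n) : ℝ)) := monotone_nat_of_le_succ hmono
  have hB0 : B 0 = max N₀ ⌈24 / ε⌉₊ := rfl
  have hM0 : (24 / ε : ℝ) ≤ g (B 0) := by
    refine (Nat.le_ceil _).trans ?_
    have := (le_max_right N₀ ⌈24 / ε⌉₊).trans (hB0 ▸ hg (B 0))
    exact_mod_cast this
  have hM0' : 24 ≤ ε * g (B 0) := by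
    rw [div_le_iff₀ hε] at hM0
    linarith
  have hMN : N₀ ≤ g (B 0) := (le_max_left _ _).trans (hB0 ▸ hg (B 0))
  obtain ⟨T, hT⟩ : ∃ T : ℤ → Prop, ∀ c, T c ↔ (c ≠ 0 ∧ Dif c) := ⟨_, fun _ => Iff.rfl⟩
  have hTs : ∀ c, T (-c) ↔ T c := fun c => by rw [hT, hT, THF_sym]
  obtain ⟨u', hu'⟩ := h2 T ε (fun j => u₀ (B j)) (fun j => g (B j))
    hTs hε hε6 hM0' (by
      intro i j hij
      have hij' : (i : ℕ) + 1 ≤ j := hij
      have a1 := hstep i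
      have a2 := hmono' hij'
      have a3 : ε * (g (B ((i : ℕ) + 1)) : ℝ) ≤ ε * g (B j) := mul_le_mul_of_nonneg_left a2 hε.le
      refine le_trans (le_of_eq ?_) (a1.trans a3)
      push_cast
      ring) (by
      intro j
      refine le_trans ?_ (hu (B j)).le
      refine Nat.cast_le.2 (card_le_card ?_)
      intro c hc
      have hc' := (@Finset.mem_filter _ _ _ _ _).1 hc
      exact (@Finset.mem_filter _ _ _ _ _).2 ⟨hc'.1, (hT c).1 hc'.2.1⟩)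
  -- the forms
  let F : Fin 4 → Finset (ℕ × ℤ) := fun j => (Ioc (u' j) (u' j + g (B j))).image (fun x => ((1 : ℕ), x))
  have hinj : Function.Injective (fun x : ℤ => ((1 : ℕ), x)) := fun x y h => congrArg Prod.snd h
  have hF : ∀ j, #(F j) = g (B j) := by
    intro j
    change #((Ioc (u' j) (u' j + g (B j))).image (fun x => ((1 : ℕ), x))) = _
    rw [card_image_of_injective _ hinj, Int.card_Ioc]
    simp
  have hL1 : 1 ≤ g (B 0) := by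
    have a1 : (0 : ℝ) < g (B 0) := lt_of_lt_of_le (by positivity) hM0
    exact_mod_cast a1
  have hQ'' := hQ' F (g (B 0)) hL1 (fun i => by
    rw [hF]
    have a1 : (g (B 0) : ℝ) ≤ g (B i) := hmono' (Nat.zero_le (i : ℕ))
    exact_mod_cast a1) (by
    intro i f hf
    obtain ⟨x, _, rfl⟩ := mem_image.1 hf
    exact Nat.one_pos)
  have hprod : (0 : ℝ) < ∏ j : Fin 4, (g (B j) : ℝ) := by
    refine prod_pos fun j _ => ?_
    have a1 := hmono' (Nat.zero_le (j : ℕ))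
    have a2 : (1 : ℝ) ≤ g (B 0) := by exact_mod_cast hL1
    exact lt_of_lt_of_le (by linarith) a1
  have hfin : (ε / 2) ^ 3 / 12 * ∏ j : Fin 4, (g (B j) : ℝ) ≤
      C * (∏ j : Fin 4, (g (B j) : ℝ)) * (g (B 0) : ℝ) ^ (-δ) := by
    refine hu'.trans (le_trans (Nat.cast_le.2 (card_le_card_of_injOn
      (fun h i => ((1 : ℕ), h i)) ?_ ?_)) (hQ''.trans (le_of_eq ?_)))
    · intro h hh
      have hh' := (@Finset.mem_filter _ _ _ _ _).1 (mem_coe.1 hh)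
      rw [Fintype.mem_piFinset] at hh'
      obtain ⟨hm, ⟨d0, d1, d2, d3⟩, hT'⟩ := hh'
      refine mem_coe.2 ((@Finset.mem_filter _ _ _ _ _).2 ⟨?_, h1 h d0 d1 d2 d3, ?_⟩)
      · rw [Fintype.mem_piFinset]
        exact fun i => mem_image_of_mem _ (hm i)
      · intro i j hij hP
        have hP' := (hT _).2 (THF_pair hP)
        rcases lt_or_gt_of_ne hij with hlt | hlt
        · refine hT' i j hlt ?_
          rw [← hTs, neg_sub]
          exact hP'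
        · exact hT' j i hlt hP'
    · intro h _ h' _ heq
      funext i
      exact congrArg Prod.snd (congrFun heq i)
    · simp only [hF]
  have hlt := hN₀ (g (B 0)) hMN
  have h9 : C * (∏ j : Fin 4, (g (B j) : ℝ)) * (g (B 0) : ℝ) ^ (-δ) =
      C * (g (B 0) : ℝ) ^ (-δ) * ∏ j : Fin 4, (g (B j) : ℝ) := by ring
  rw [h9] at hfin
  have h10 := lt_of_mul_lt_mul_right (a := ∏ j : Fin 4, (g (B j) : ℝ))
    (lt_of_le_of_lt hfin (mul_lt_mul_of_pos_right hlt hprod)) hprod.le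
  exact lt_irrefl _ h10

end Pool.Agent.AT
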